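import Pool.Agent.helper91.ADV.SpecX
import Pool.Agent.helper55.NT.Dbl
import Pool.Agent.helper13.LN.HNP
import Pool.Agent.helper80.HM.ACC
import Pool.Agent.helper80.HM.NHS
import Pool.Agent.helper25.HM.CPO
import Pool.Agent.helper97.HM.NLI
import Pool.Agent.helper67.HM.NCF
import Pool.Agent.helper73.HM.NCB
import Pool.Agent.helper40.HM.NRE
import Pool.Agent.helper50.HM.NPC

/-! Project ADV, row QTX: the question and prediction, exact constant. -/

set_option autoImplicit false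

namespace Pool.Agent.ADV

open Finset Pool.Agent.helper38.Neg Pool.Agent.helper55.NT Pool.Agent.LNB

theorem QTX_dbl (A : Lang) (h : InPPoly (dbl A)) : InPPoly A := by
  obtain ⟨p, hp⟩ := h
  refine ⟨Polynomial.X + 2 * p.comp (Polynomial.X + Polynomial.X), fun n => ?_⟩
  obtain ⟨s, hs, C, o, hC⟩ := hp (n + n)
  obtain ⟨s', hs', C', o', h1⟩ := dbl_circuit A n s C o hC
  refine ⟨s', hs'.trans ?_, C', o', h1⟩
  simp only [Polynomial.eval_add, Polynomial.eval_X, Polynomial.eval_mul,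
    Polynomial.eval_ofNat, Polynomial.eval_comp]
  have : s ≤ p.eval (n + n) := hs
  omega

theorem QTX_npc : InPPoly LN.HC → ∀ A, InNPPoly A → InPPoly A :=
  (Pool.Agent.HM.NPC (Pool.Agent.HM.NRE Pool.Agent.HM.ACC Pool.Agent.HM.CPO Pool.Agent.HM.NLI
    Pool.Agent.HM.NCF Pool.Agent.HM.NCB Pool.Agent.HM.NHS)).1

theorem QTX (h1 : TFX_stmt) : QTX_stmt := by
  intro u r
  tfae_have 1 → 2 := fun h A hA => ((h1 u r A).out 0 1).1 (h A hA)
  tfae_have 2 → 1 := fun h A hA => ((h1 u r A).out 0 1).2 (h A hA)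
  tfae_have 1 → 3 := fun h A hA _ => ((h1 u r A).out 0 2).1 (h A hA)
  tfae_have 3 → 1 := by
    intro h A hA
    exact QTX_dbl A (((h1 u r (dbl A)).out 0 2).2 (h (dbl A) (dbl_inNPPoly A hA) (dbl_mono A)))
  tfae_have 1 → 4 := fun h => ((h1 u r LN.HC).out 0 1).1 (h LN.HC LN.HNP.1)
  tfae_have 4 → 5 := fun h => ((h1 u r LN.HC).out 1 2).1 h
  tfae_have 5 → 1 := fun h => QTX_npc (((h1 u r LN.HC).out 0 2).2 h)
  tfae_finish

end Pool.Agent.ADV
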